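import Pool.Agent.W257.HL.Stm

set_option autoImplicit false

namespace Pool.Agent.W395.HL

open Pool.Agent.W257.HL

theorem lin : S_LIN := by
  refine ⟨10 ^ 10, ?_⟩
  intro A B x y l hD hE hq
  obtain ⟨H, hH⟩ : ∃ H : ℤ, H = ((max A.natAbs B.natAbs : ℕ) : ℤ) := ⟨_, rfl⟩
  have hA : |A| ≤ H := by
    rw [hH, Int.abs_eq_natAbs]; exact_mod_cast le_max_left _ _
  have hB : |B| ≤ H := by
    rw [hH, Int.abs_eq_natAbs]; exact_mod_cast le_max_right _ _
  have hH1 : 1 ≤ H := by
    by_contra hcon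
    have h0 : H ≤ 0 := by omega
    have hA0 : A = 0 := abs_eq_zero.mp (le_antisymm (hA.trans h0) (abs_nonneg A))
    have hB0 : B = 0 := abs_eq_zero.mp (le_antisymm (hB.trans h0) (abs_nonneg B))
    apply hD
    rw [hA0, hB0]; norm_num
  have hpow : H ^ 4 ≤ H ^ 20 := pow_le_pow_right₀ hH1 (by norm_num)
  have hpow1 : H ≤ H ^ 4 := by
    calc H = H ^ 1 := (pow_one H).symm
      _ ≤ H ^ 4 := pow_le_pow_right₀ hH1 (by norm_num)
  suffices hgoal : |x| ≤ 10 ^ 10 * H ^ 4 by
    have h2 : |x| ≤ 10 ^ 10 * H ^ 20 := hgoal.trans (by linarith)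
    rw [Int.abs_eq_natAbs, hH] at h2
    exact_mod_cast h2
  obtain ⟨U, hU⟩ : ∃ U : ℤ, U = l ^ 2 - x := ⟨_, rfl⟩
  obtain ⟨V, hV⟩ : ∃ V : ℤ, V = l ^ 3 - 3 * l * x + 2 * y := ⟨_, rfl⟩
  have h1 : 4 * l * V = 3 * U ^ 2 + 4 * A := by
    rw [hU, hV]; linear_combination hq
  have h2 : 2 * V ^ 2 = U ^ 3 + 4 * A * U + 8 * B := by
    rw [hU, hV]; linear_combination (l ^ 2 - 3 * x) * hq + 8 * hE
  have h3 : 8 * l ^ 2 * (2 * V ^ 2) = (3 * U ^ 2 + 4 * A) ^ 2 := by
    linear_combination (4 * l * V + (3 * U ^ 2 + 4 * A)) * h1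
  have h4 : 2 * V ^ 2 * (8 * l ^ 2 - 9 * U) = -12 * (A * U ^ 2) - 72 * (B * U) + 16 * A ^ 2 := by
    linear_combination h3 - 9 * U * h2
  have hV0 : V ≠ 0 := by
    intro h0
    rw [h0] at h1 h2
    have e1 : 3 * U ^ 2 + 4 * A = 0 := by linarith
    have e2 : U ^ 3 + 4 * A * U + 8 * B = 0 := by linarith
    have e3 : A * U = -3 * B := by
      have : 8 * (A * U + 3 * B) = 0 := by linear_combination 3 * e2 - U * e1
      linarith
    apply hD
    linear_combination A ^ 2 * e1 - 3 * (A * U - 3 * B) * e3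
  have hVsq : 1 ≤ V ^ 2 := by
    have := Int.one_le_abs hV0
    nlinarith [sq_abs V]
  obtain ⟨u, hu⟩ : ∃ u : ℤ, u = |U| := ⟨_, rfl⟩
  have hu0 : 0 ≤ u := by rw [hu]; exact abs_nonneg U
  have huU : u ^ 2 = U ^ 2 := by rw [hu]; exact sq_abs U
  have hH0 : 0 ≤ H := by linarith
  have hA2 : A ^ 2 ≤ H ^ 2 := by
    rw [← sq_abs A]; exact pow_le_pow_left₀ (abs_nonneg A) hA 2
  have bAU2 : |A * U ^ 2| ≤ H * u ^ 2 := by
    rw [abs_mul, abs_pow, ← hu]
    exact mul_le_mul_of_nonneg_right hA (by positivity)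
  have bBU : |B * U| ≤ H * u := by
    rw [abs_mul, ← hu]
    exact mul_le_mul_of_nonneg_right hB hu0
  have bAU : |A * U| ≤ H * u := by
    rw [abs_mul, ← hu]
    exact mul_le_mul_of_nonneg_right hA hu0
  have hxU : x = l ^ 2 - U := by rw [hU]; ring
  have hUle : -u ≤ U ∧ U ≤ u := by
    rw [hu]; exact ⟨neg_abs_le U, le_abs_self U⟩
  by_cases hR : 8 * l ^ 2 - 9 * U = 0
  · -- the degenerate case
    have hx8 : 8 * x = U := by rw [hxU]; linarith
    have hR2 : 3 * (A * U ^ 2) + 18 * (B * U) = 4 * A ^ 2 := by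
      rw [hR, mul_zero] at h4; linarith
    have hub : u ≤ 7 * H := by
      by_cases hA0 : A = 0
      · have hB0 : B ≠ 0 := by
          intro h0; apply hD; rw [hA0, h0]; norm_num
        rw [hA0] at hR2
        have : B * U = 0 := by linarith
        rcases mul_eq_zero.mp this with h | h
        · exact absurd h hB0
        · rw [hu, h, abs_zero]; linarith
      · have hA1 : 1 ≤ |A| := Int.one_le_abs hA0
        by_contra hcon
        push Not at hcon
        have e1 : 3 * (|A| * u ^ 2) ≤ 18 * (H * u) + 4 * |A| ^ 2 := by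
          have e2 : |A| * u ^ 2 = |A * U ^ 2| := by rw [abs_mul, abs_pow, ← hu]
          have e3 : 3 * |A * U ^ 2| = |4 * A ^ 2 - 18 * (B * U)| := by
            have : 3 * (A * U ^ 2) = 4 * A ^ 2 - 18 * (B * U) := by linarith
            rw [← this, abs_mul]; norm_num
          have e4 : |4 * A ^ 2 - 18 * (B * U)| ≤ 4 * A ^ 2 + 18 * |B * U| := by
            rw [abs_le]
            have := abs_le.mp (le_refl |B * U|)
            constructor
            · nlinarith [sq_nonneg A]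
            · nlinarith [sq_nonneg A]
          rw [e2, e3, sq_abs]
          linarith
        have e5 : 7 * H * u ≤ u ^ 2 := by nlinarith
        have e6 : |A| ≤ H := hA
        nlinarith [mul_nonneg (sub_nonneg.mpr hA1) (sub_nonneg.mpr e5),
          mul_nonneg hH0 hu0, mul_nonneg (abs_nonneg A) (sub_nonneg.mpr e6),
          mul_nonneg (sub_nonneg.mpr hA1) (mul_nonneg hH0 hu0)]
    have hxa : |x| ≤ u := by
      rw [abs_le]; constructor <;> linarith [hUle.1, hUle.2]
    linarith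
  · have hN : 2 * V ^ 2 ≤ 12 * (H * u ^ 2) + 72 * (H * u) + 16 * H ^ 2 := by
      have e1 : 1 ≤ |8 * l ^ 2 - 9 * U| := Int.one_le_abs hR
      have e2 : 2 * V ^ 2 * |8 * l ^ 2 - 9 * U|
          = |-12 * (A * U ^ 2) - 72 * (B * U) + 16 * A ^ 2| := by
        rw [← h4, abs_mul, abs_of_nonneg (by positivity : (0 : ℤ) ≤ 2 * V ^ 2)]
      have e3 : |-12 * (A * U ^ 2) - 72 * (B * U) + 16 * A ^ 2|
          ≤ 12 * (H * u ^ 2) + 72 * (H * u) + 16 * H ^ 2 := by
        have a1 := abs_le.mp bAU2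
        have a2 := abs_le.mp bBU
        rw [abs_le]
        constructor
        · nlinarith [sq_nonneg A, sq_nonneg H]
        · linarith
      have e4 : 2 * V ^ 2 * 1 ≤ 2 * V ^ 2 * |8 * l ^ 2 - 9 * U| :=
        mul_le_mul_of_nonneg_left e1 (by positivity)
      linarith
    have hu3 : u ^ 3 ≤ 12 * (H * u ^ 2) + 76 * (H * u) + 16 * H ^ 2 + 8 * H := by
      have e1 : u ^ 3 = |U ^ 3| := by rw [abs_pow, ← hu]
      have e2 : U ^ 3 = 2 * V ^ 2 - 4 * (A * U) - 8 * B := by linear_combination -h2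
      have a1 := abs_le.mp bAU
      have a2 := abs_le.mp hB
      rw [e1, e2, abs_le]
      have hV2 : (0 : ℤ) ≤ V ^ 2 := by positivity
      have hHu2 : 0 ≤ H * u ^ 2 := by positivity
      have hHu : 0 ≤ H * u := by positivity
      have hH2 : 0 ≤ H ^ 2 := by positivity
      constructor <;> linarith
    have hub : u ≤ 100 * H := by
      by_contra hcon
      push Not at hcon
      have f1 : 100 * H * u ^ 2 ≤ u ^ 3 := by
        have : 0 ≤ (u - 100 * H) * u ^ 2 := mul_nonneg (by linarith) (by positivity)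
        linarith
      have f2 : 100 * (H * u) ≤ H * u ^ 2 := by
        have : 0 ≤ (u - 100) * (H * u) := mul_nonneg (by linarith) (by positivity)
        linarith
      have f3 : 100 * H ^ 2 ≤ H * u := by
        have : 0 ≤ (u - 100 * H) * H := mul_nonneg (by linarith) hH0
        linarith
      have f4 : H ≤ H ^ 2 := by nlinarith
      have f5 : 0 ≤ H * u := by positivity
      linarith
    have hl : 8 * l ^ 2 ≤ 30004 ^ 2 * H ^ 4 := by
      have g1 : 8 * l ^ 2 * 1 ≤ 8 * l ^ 2 * (2 * V ^ 2) :=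
        mul_le_mul_of_nonneg_left (by linarith) (by positivity)
      have g2 : |3 * U ^ 2 + 4 * A| ≤ 30004 * H ^ 2 := by
        have a1 := abs_le.mp hA
        have g3 : u ^ 2 ≤ (100 * H) ^ 2 := pow_le_pow_left₀ hu0 hub 2
        have f4 : H ≤ H ^ 2 := by nlinarith
        have g4 : 0 ≤ u ^ 2 := by positivity
        have g5 : 0 ≤ H ^ 2 := by positivity
        rw [abs_le, ← huU]
        constructor
        · linarith
        · linarith
      have g6 : (3 * U ^ 2 + 4 * A) ^ 2 ≤ (30004 * H ^ 2) ^ 2 := by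
        rw [← sq_abs (3 * U ^ 2 + 4 * A)]
        exact pow_le_pow_left₀ (abs_nonneg _) g2 2
      calc 8 * l ^ 2 = 8 * l ^ 2 * 1 := by ring
        _ ≤ 8 * l ^ 2 * (2 * V ^ 2) := g1
        _ = (3 * U ^ 2 + 4 * A) ^ 2 := h3
        _ ≤ (30004 * H ^ 2) ^ 2 := g6
        _ = 30004 ^ 2 * H ^ 4 := by ring
    have hl0 : 0 ≤ l ^ 2 := by positivity
    rw [hxU, abs_le]
    constructor
    · linarith [hUle.1, hUle.2]
    · linarith [hUle.1, hUle.2]

end Pool.Agent.W395.HL
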